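import Pool.Agent.helper23.CS.Spec2

/-! # cs:STA0 (MP_7c3fb3_pr): polynomial decay from exponential decay -/

open Finset

namespace CS
open CU

theorem STA0_exp (c : ℝ) (hc : 0 < c) (k L : ℕ) :
    Real.exp (-c * L) * ((L : ℝ) + 1) ^ k ≤ k.factorial / c ^ k * Real.exp c := by
  have h := Real.pow_div_factorial_le_exp (c * ((L : ℝ) + 1)) (by positivity) k
  have hk : (0 : ℝ) < k.factorial := by exact_mod_cast k.factorial_pos
  have hck : (0 : ℝ) < c ^ k := pow_pos hc k
  rw [div_le_iff₀ hk, mul_pow] at h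
  have h2 : ((L : ℝ) + 1) ^ k ≤ k.factorial / c ^ k * Real.exp (c * ((L : ℝ) + 1)) := by
    rw [div_mul_eq_mul_div, le_div_iff₀ hck]
    linarith
  calc Real.exp (-c * L) * ((L : ℝ) + 1) ^ k
      ≤ Real.exp (-c * L) * (k.factorial / c ^ k * Real.exp (c * ((L : ℝ) + 1))) :=
        mul_le_mul_of_nonneg_left h2 (Real.exp_pos _).le
    _ = k.factorial / c ^ k * (Real.exp (-c * L) * Real.exp (c * ((L : ℝ) + 1))) := by ring
    _ = k.factorial / c ^ k * Real.exp c := by
        rw [← Real.exp_add]; congr 2; ring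

theorem STA0_univ {V : Type} [Fintype V] [DecidableEq V] (W : (V → Bool) → ℝ) (x : V) :
    CWM.dl W univ x = 0 := by
  have h : CWM.cw W univ true = CWM.cw W univ false := by
    funext σ
    unfold CWM.cw
    simp
  unfold CWM.dl
  rw [h, sub_self]

theorem STA0 (hSHARP : SHARP_stmt) (hMONA : MONA_stmt) (hBRA : BRA_stmt) (hBRB : BRB_stmt)
    (hWTS : WTS_stmt) (hVF : CU.VF_stmt) : STA0_stmt := by
  intro d β β' hβ hββ' hU
  obtain ⟨C, c, hC, hc, hML⟩ := hSHARP d β β' hβ hββ' hU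
  refine ⟨C * Real.exp c * ((4 * d).factorial / c ^ (4 * d) * Real.exp c), by positivity, ?_⟩
  intro n x L
  -- inside
  have hin : ∀ L : ℕ, 2 * L ≤ n →
      CWM.dl (wt β 0 : Conf d (n + 3) → ℝ) (CWM.Bl (CWM.tD d (n + 3) β 0) x L) x ≤
        C * Real.exp (-c * L) := by
    intro L hL
    rw [hBRA d n β _ x, hBRB d n β L x, hVF d β L n hL]
    exact hML L
  have hec : 1 ≤ Real.exp c := Real.one_le_exp hc.le
  have key : CWM.dl (wt β 0 : Conf d (n + 3) → ℝ) (CWM.Bl (CWM.tD d (n + 3) β 0) x L) x ≤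
      C * Real.exp c * Real.exp (-c * L) := by
    by_cases h1 : 2 * L ≤ n
    · refine (hin L h1).trans ?_
      have h2 : C ≤ C * Real.exp c := le_mul_of_one_le_right hC.le hec
      exact mul_le_mul_of_nonneg_right h2 (Real.exp_pos _).le
    by_cases h2 : 2 * L = n + 1
    · obtain ⟨M, rfl⟩ : ∃ M, L = M + 1 := ⟨L - 1, by omega⟩
      have h3 : CWM.Bl (CWM.tD d (n + 3) β 0) x M ⊆ CWM.Bl (CWM.tD d (n + 3) β 0) x (M + 1) := by
        intro y hy
        unfold CWM.Bl at hy ⊢
        rw [mem_filter] at hy ⊢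
        exact ⟨hy.1, hy.2.trans (Nat.le_succ M)⟩
      obtain ⟨w1, w2⟩ := hWTS d n β hβ
      refine (hMONA _ _ w1 w2 _ _ h3 x).trans ((hin M (by omega)).trans ?_)
      rw [mul_assoc, ← Real.exp_add]
      apply mul_le_mul_of_nonneg_left _ hC.le
      apply Real.exp_le_exp.2
      push_cast
      linarith
    · have h3 : CWM.Bl (CWM.tD d (n + 3) β 0) x L = univ := by
        ext y
        unfold CWM.Bl
        simp only [mem_filter, mem_univ, true_and, iff_true]
        show CWM.dsT x y ≤ L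
        unfold CWM.dsT
        apply Finset.sup_le
        intro i _
        have := ZMod.natAbs_valMinAbs_le (x i - y i)
        omega
      rw [h3, STA0_univ]
      positivity
  have hpos : (0 : ℝ) < ((L : ℝ) + 1) ^ (4 * d) := by positivity
  rw [le_div_iff₀ hpos]
  calc _ ≤ C * Real.exp c * Real.exp (-c * L) * ((L : ℝ) + 1) ^ (4 * d) :=
        mul_le_mul_of_nonneg_right key hpos.le
    _ = C * Real.exp c * (Real.exp (-c * L) * ((L : ℝ) + 1) ^ (4 * d)) := by ring
    _ ≤ _ := mul_le_mul_of_nonneg_left (STA0_exp c hc (4 * d) L) (by positivity)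

end CS
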